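import Pool.Agent.Work.MP_e299be_co.Basic

namespace Pool.Agent.Work.MP_e299be_co

/-- The second component of the word. -/
def v : ℕ → ZMod 3
  | n => if n % 3 = 1 then v (n / 3) else ((n / 3 : ℕ) : ZMod 3)
decreasing_by omega

theorem v_zero (m : ℕ) : v (3 * m) = (m : ZMod 3) := by
  rw [v, if_neg (by omega)]
  congr 1; omega

theorem v_one (m : ℕ) : v (3 * m + 1) = v m := by
  rw [v, if_pos (by omega)]
  congr 1; omega

theorem v_two (m : ℕ) : v (3 * m + 2) = (m : ZMod 3) := by
  rw [v, if_neg (by omega)]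
  congr 1; omega

/-- The word over nine letters. -/
def w (n : ℕ) : ZMod 3 × ZMod 3 := ((n : ZMod 3), v n)

/-- An occurrence of the digraph `r` in the word `w`, with blocks given by lengths and letters. -/
def Occ {V : Type} (r : V → V → Prop) (l : V → ℕ) (B : V → ℕ → ZMod 3 × ZMod 3) : Prop :=
  (∀ a, 1 ≤ l a) ∧ ∀ a b, r a b → ∃ n, (∀ i < l a, w (n + i) = B a i) ∧
    (∀ i < l b, w (n + l a + i) = B b i)

theorem cast_three (m : ℕ) : ((3 * m : ℕ) : ZMod 3) = 0 := by
  have h3 : (3 : ZMod 3) = 0 := by decide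
  push_cast
  rw [h3, zero_mul]

theorem descent {V : Type} {r : V → V → Prop} (hr : Locked r) {l : V → ℕ}
    {B : V → ℕ → ZMod 3 × ZMod 3} (h : Occ r l B) :
    ∃ B', Occ r (fun a => l a / 3) B' := by
  obtain ⟨hl, hB⟩ := h
  obtain ⟨o, ho⟩ := hr.conn (fun a => (B a (l a - 1)).1 + 1) (fun b => (B b 0).1) (by
    intro a b hab
    obtain ⟨n, h1, h2⟩ := hB a b hab
    have h3 := h1 (l a - 1) (by have := hl a; omega)
    have h4 := h2 0 (by have := hl b; omega)
    rw [← h3, ← h4]
    unfold w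
    have : n + l a + 0 = n + (l a - 1) + 1 := by have := hl a; omega
    rw [this, Nat.cast_add _ 1, Nat.cast_one])
  -- lengths are divisible by three
  have hpos : ∀ a b, r a b → ∀ n, (∀ i < l a, w (n + i) = B a i) → (n : ZMod 3) = o := by
    intro a b _ n h1
    have h2 := h1 0 (by have := hl a; omega)
    rw [← (ho a).2, ← h2]
    simp [w]
  have hdiv : ∀ a, ∃ m, 1 ≤ m ∧ l a = 3 * m := by
    intro a
    obtain ⟨b, hab⟩ := hr.out a
    obtain ⟨n, h1, h2⟩ := hB a b hab
    have h3 := hpos a b hab n h1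
    have h4 : ((n + l a : ℕ) : ZMod 3) = o := by
      have h5 := h2 0 (by have := hl b; omega)
      rw [← (ho b).2, ← h5]
      simp [w]
    rw [Nat.cast_add, h3] at h4
    have h5 : ((l a : ℕ) : ZMod 3) = 0 := by
      have := h4
      rwa [add_eq_left] at this
    rw [ZMod.natCast_eq_zero_iff] at h5
    obtain ⟨m, hm⟩ := h5
    refine ⟨m, ?_, hm⟩
    have := hl a
    omega
  have hla : ∀ a, 1 ≤ l a / 3 ∧ l a = 3 * (l a / 3) := by
    intro a
    obtain ⟨m, h1, h2⟩ := hdiv a
    omega
  have hcase : o = 0 ∨ o = 1 ∨ o = 2 := by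
    have : ∀ o : ZMod 3, o = 0 ∨ o = 1 ∨ o = 2 := by decide
    exact this o
  rcases hcase with rfl | rfl | rfl
  · refine ⟨fun a i => ((B a (3 * i)).2, (B a (3 * i + 1)).2), fun a => (hla a).1, ?_⟩
    intro a b hab
    obtain ⟨n, h1, h2⟩ := hB a b hab
    have h3 := hpos a b hab n h1
    rw [ZMod.natCast_eq_zero_iff] at h3
    obtain ⟨m, rfl⟩ := h3
    refine ⟨m, ?_, ?_⟩
    · intro i hi
      simp only at hi ⊢
      have e1 := h1 (3 * i) (by omega)
      have e2 := h1 (3 * i + 1) (by omega)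
      rw [← e1, ← e2]
      unfold w
      rw [show 3 * m + (3 * i + 1) = 3 * (m + i) + 1 by ring,
        show 3 * m + 3 * i = 3 * (m + i) by ring, v_one, v_zero]
    · intro i hi
      simp only at hi ⊢
      have hx := (hla a).2
      have e1 := h2 (3 * i) (by omega)
      have e2 := h2 (3 * i + 1) (by omega)
      rw [← e1, ← e2]
      unfold w
      rw [show 3 * m + l a + (3 * i + 1) = 3 * (m + l a / 3 + i) + 1 by omega,
        show 3 * m + l a + 3 * i = 3 * (m + l a / 3 + i) by omega, v_one, v_zero]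
  · refine ⟨fun a i => ((B a (3 * i + 1)).2, (B a (3 * i)).2), fun a => (hla a).1, ?_⟩
    intro a b hab
    obtain ⟨n, h1, h2⟩ := hB a b hab
    have h3 := hpos a b hab n h1
    have h3' : ((n : ℕ) : ZMod 3) = ((1 : ℕ) : ZMod 3) := by rw [h3]; rfl
    rw [ZMod.natCast_eq_natCast_iff] at h3'
    obtain ⟨m, rfl⟩ : ∃ m, n = 3 * m + 1 := ⟨n / 3, by
      unfold Nat.ModEq at h3'; omega⟩
    refine ⟨m, ?_, ?_⟩
    · intro i hi
      simp only at hi ⊢
      have e1 := h1 (3 * i) (by omega)
      have e2 := h1 (3 * i + 1) (by omega)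
      rw [← e1, ← e2]
      unfold w
      rw [show 3 * m + 1 + (3 * i + 1) = 3 * (m + i) + 2 by ring,
        show 3 * m + 1 + 3 * i = 3 * (m + i) + 1 by ring, v_one, v_two]
    · intro i hi
      simp only at hi ⊢
      have hx := (hla a).2
      have e1 := h2 (3 * i) (by omega)
      have e2 := h2 (3 * i + 1) (by omega)
      rw [← e1, ← e2]
      unfold w
      rw [show 3 * m + 1 + l a + (3 * i + 1) = 3 * (m + l a / 3 + i) + 2 by omega,
        show 3 * m + 1 + l a + 3 * i = 3 * (m + l a / 3 + i) + 1 by omega, v_one, v_two]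
  · refine ⟨fun a i => ((B a (3 * i + 1)).2, (B a (3 * i + 2)).2), fun a => (hla a).1, ?_⟩
    intro a b hab
    obtain ⟨n, h1, h2⟩ := hB a b hab
    have h3 := hpos a b hab n h1
    have h3' : ((n : ℕ) : ZMod 3) = ((2 : ℕ) : ZMod 3) := by rw [h3]; rfl
    rw [ZMod.natCast_eq_natCast_iff] at h3'
    obtain ⟨m, rfl⟩ : ∃ m, n = 3 * m + 2 := ⟨n / 3, by
      unfold Nat.ModEq at h3'; omega⟩
    refine ⟨m + 1, ?_, ?_⟩
    · intro i hi
      simp only at hi ⊢
      have e1 := h1 (3 * i + 1) (by omega)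
      have e2 := h1 (3 * i + 2) (by omega)
      rw [← e1, ← e2]
      unfold w
      rw [show 3 * m + 2 + (3 * i + 1) = 3 * (m + 1 + i) by ring,
        show 3 * m + 2 + (3 * i + 2) = 3 * (m + 1 + i) + 1 by ring, v_one, v_zero]
    · intro i hi
      simp only at hi ⊢
      have hx := (hla a).2
      have e1 := h2 (3 * i + 1) (by omega)
      have e2 := h2 (3 * i + 2) (by omega)
      rw [← e1, ← e2]
      unfold w
      rw [show 3 * m + 2 + l a + (3 * i + 1) = 3 * (m + 1 + l a / 3 + i) by omega,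
        show 3 * m + 2 + l a + (3 * i + 2) = 3 * (m + 1 + l a / 3 + i) + 1 by omega, v_one,
        v_zero]

theorem no_occ {V : Type} {r : V → V → Prop} (hr : Locked r) (a0 : V) :
    ∀ (n : ℕ) (l : V → ℕ) (B : V → ℕ → ZMod 3 × ZMod 3), l a0 = n → ¬ Occ r l B := by
  intro n
  induction n using Nat.strong_induction_on with
  | _ n ih =>
    intro l B hn h
    have h1 := h.1 a0
    obtain ⟨B', hB'⟩ := descent hr h
    have h2 := hB'.1 a0
    simp only at h2
    exact ih (l a0 / 3) (by omega) _ B' rfl hB'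

/-- The pattern of a locked digraph is avoided by the word `w`. -/
theorem locked_avoid {V : Type} {r : V → V → Prop} (hr : Locked r) (a0 : V) (L : List (V × V))
    (hL : ∀ a b, r a b → (a, b) ∈ L) (j k n : ℕ) : ¬ Matches 1 (pat j L) (factor w k n) := by
  rintro ⟨B, h1, h2⟩
  have hmem : ∀ a, Sum.inl a ∈ pat j L := by
    intro a
    obtain ⟨b, hab⟩ := hr.out a
    have := pat_infix L j a b (hL a b hab)
    exact this.subset (by simp)
  refine no_occ hr a0 _ (fun a => (B (Sum.inl a)).length)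
    (fun a i => (B (Sum.inl a)).getD i 0) rfl ⟨fun a => h1 _ (hmem a), ?_⟩
  intro a b hab
  have h3 : B (Sum.inl a) ++ B (Sum.inl b) <:+: factor w k n := by
    rw [h2]
    obtain ⟨P, Q, hPQ⟩ := pat_infix L j a b (hL a b hab)
    refine ⟨(P.map B).flatten, (Q.map B).flatten, ?_⟩
    rw [← hPQ]
    simp
  obtain ⟨k', hk'⟩ := factor_of_infix h3
  rw [List.length_append, factor_add] at hk'
  have h4 := List.append_inj hk' (by rw [factor_length])
  obtain ⟨h5, h6⟩ := h4
  refine ⟨k', ?_, ?_⟩
  · intro i hi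
    simp only at hi ⊢
    rw [List.getD_eq_getElem _ _ hi]
    have : (B (Sum.inl a))[i]? = some (w (k' + i)) := by
      rw [h5, List.getElem?_eq_getElem (by rw [factor_length]; exact hi), factor_getElem]
    rw [List.getElem?_eq_getElem hi, Option.some_inj] at this
    exact this.symm
  · intro i hi
    simp only at hi ⊢
    rw [List.getD_eq_getElem _ _ hi]
    have : (B (Sum.inl b))[i]? = some (w (k' + (B (Sum.inl a)).length + i)) := by
      rw [h6, List.getElem?_eq_getElem (by rw [factor_length]; exact hi), factor_getElem]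
    rw [List.getElem?_eq_getElem hi, Option.some_inj] at this
    exact this.symm

end Pool.Agent.Work.MP_e299be_co
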