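import Mathlib

namespace Pool.Agent.Work.MP_e299be_co

/-- The factor of `s` of length `n` starting at position `k`. -/
def factor {A : Type} (s : ℕ → A) (k n : ℕ) : List A := (List.range n).map (fun i => s (k + i))

/-- The word `w` matches the pattern `p` through blocks of length at least `m`. -/
def Matches {α A : Type} (m : ℕ) (p : List α) (w : List A) : Prop :=
  ∃ B : α → List A, (∀ x ∈ p, m ≤ (B x).length) ∧ w = (p.map B).flatten

theorem Matches.of_map {α β A : Type} {m : ℕ} {p : List α} {w : List A} (f : α → β)
    (h : Matches m (p.map f) w) : Matches m p w := by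
  obtain ⟨B, h1, h2⟩ := h
  refine ⟨B ∘ f, ?_, ?_⟩
  · intro x hx
    exact h1 (f x) (List.mem_map_of_mem hx)
  · rw [h2, List.map_map]

theorem Matches.map {α β A : Type} {m : ℕ} {p : List α} {w : List A} (f : α → β)
    (hf : Function.Injective f) (h : Matches m p w) : Matches m (p.map f) w := by
  obtain ⟨B, h1, h2⟩ := h
  rcases isEmpty_or_nonempty α with he | hne
  · have : p = [] := by
      cases p with
      | nil => rfl
      | cons a _ => exact (he.false a).elim
    subst this
    exact ⟨fun _ => [], by simp, by simpa using h2⟩
  · refine ⟨B ∘ Function.invFun f, ?_, ?_⟩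
    · intro x hx
      rw [List.mem_map] at hx
      obtain ⟨a, ha, rfl⟩ := hx
      simp only [Function.comp, Function.leftInverse_invFun hf a]
      exact h1 a ha
    · rw [h2, List.map_map]
      congr 1
      apply List.map_congr_left
      intro a _
      simp only [Function.comp, Function.leftInverse_invFun hf a]

theorem factor_length {A : Type} (s : ℕ → A) (k n : ℕ) : (factor s k n).length = n := by
  simp [factor]

theorem factor_getElem {A : Type} (s : ℕ → A) (k n i : ℕ) (hi : i < (factor s k n).length) :
    (factor s k n)[i] = s (k + i) := by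
  simp [factor]

theorem factor_add {A : Type} (s : ℕ → A) (k m n : ℕ) :
    factor s k (m + n) = factor s k m ++ factor s (k + m) n := by
  unfold factor
  rw [List.range_add, List.map_append, List.map_map]
  congr 1
  apply List.map_congr_left
  intro i _
  simp only [Function.comp]
  congr 1
  omega

theorem factor_of_infix {A : Type} {s : ℕ → A} {k n : ℕ} {X : List A}
    (h : X <:+: factor s k n) : ∃ k', X = factor s k' X.length := by
  obtain ⟨P, Q, h⟩ := h
  refine ⟨k + P.length, ?_⟩
  apply List.ext_getElem
  · rw [factor_length]
  · intro i h1 h2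
    rw [factor_getElem]
    have hlen : (P ++ X ++ Q).length = n := by rw [h, factor_length]
    have h5 : (P ++ X ++ Q)[P.length + i]? = some X[i] := by
      rw [List.append_assoc, List.getElem?_append_right (by omega),
        List.getElem?_append_left (by omega), Nat.add_sub_cancel_left,
        List.getElem?_eq_getElem h1]
    have h3 : P.length + i < n := by
      rw [← hlen]; simp only [List.length_append]; omega
    have h6 : (factor s k n)[P.length + i]? = some (s (k + (P.length + i))) := by
      rw [List.getElem?_eq_getElem (by rw [factor_length]; exact h3), factor_getElem]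
    rw [h, h6, Option.some_inj] at h5
    rw [← h5, Nat.add_assoc]

/-- The letters of the pattern attached to a list of arcs: the `i`th arc `(a, b)` gives the
fragment `a b` followed by a variable which occurs only there. -/
def pat {V : Type} : ℕ → List (V × V) → List (V ⊕ ℕ)
  | _, [] => []
  | j, (a, b) :: L => Sum.inl a :: Sum.inl b :: Sum.inr j :: pat (j + 1) L

theorem pat_infix {V : Type} (L : List (V × V)) (j : ℕ) (a b : V) (h : (a, b) ∈ L) :
    [Sum.inl a, Sum.inl b] <:+: pat j L := by
  induction L generalizing j with
  | nil => simp at h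
  | cons x L ih =>
    obtain ⟨a', b'⟩ := x
    rw [List.mem_cons] at h
    rcases h with h | h
    · rw [Prod.mk.injEq] at h
      obtain ⟨rfl, rfl⟩ := h
      exact ⟨[], Sum.inr j :: pat (j + 1) L, by simp [pat]⟩
    · obtain ⟨P, Q, hPQ⟩ := ih (j + 1) h
      refine ⟨Sum.inl a' :: Sum.inl b' :: Sum.inr j :: P, Q, ?_⟩
      simp only [pat, ← hPQ, List.cons_append]

theorem pat_mem_inr {V : Type} (L : List (V × V)) (j i : ℕ) (h : Sum.inr i ∈ pat j L) : j ≤ i := by
  induction L generalizing j with
  | nil => simp [pat] at h
  | cons x L ih =>
    obtain ⟨a', b'⟩ := x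
    simp only [pat, List.mem_cons, reduceCtorEq, Sum.inr.injEq, false_or] at h
    rcases h with h | h
    · omega
    · have := ih (j + 1) h; omega

/-- Lockedness of a digraph, in terms of functions to `ZMod 3`. -/
structure Locked {V : Type} (r : V → V → Prop) : Prop where
  out : ∀ a, ∃ b, r a b
  inn : ∀ b, ∃ a, r a b
  conn : ∀ e s : V → ZMod 3, (∀ a b, r a b → e a = s b) → ∃ o, ∀ a, e a = o ∧ s a = o

theorem update_const {ι : Type} [Fintype ι] [DecidableEq ι] {V : ι → Type} {W : Type}
    (f : (∀ i, V i) → W) (h : ∀ a i x, f (Function.update a i x) = f a) (a a' : ∀ i, V i) :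
    f a = f a' := by
  have key : ∀ S : Finset ι, f (fun i => if i ∈ S then a' i else a i) = f a := by
    intro S
    induction S using Finset.induction_on with
    | empty => simp
    | insert j S hj ih =>
      rw [← ih, ← h (fun i => if i ∈ S then a' i else a i) j (a' j)]
      congr 1
      funext i
      by_cases hi : i = j
      · subst hi
        simp
      · rw [Function.update_of_ne hi]
        simp only [Finset.mem_insert, hi, false_or]
  have := key Finset.univ
  simp only [Finset.mem_univ, if_true] at this
  exact this.symm

theorem locked_pi {ι : Type} [Fintype ι] [DecidableEq ι] {V : ι → Type}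
    {r : ∀ i, V i → V i → Prop} (hr : ∀ i, Locked (r i)) [hne : ∀ i, Nonempty (V i)] :
    Locked (fun a b : ∀ i, V i => ∀ i, r i (a i) (b i)) := by
  have hout : ∀ a : ∀ i, V i, ∃ b : ∀ i, V i, ∀ i, r i (a i) (b i) := by
    intro a
    choose b hb using fun i => (hr i).out (a i)
    exact ⟨b, hb⟩
  have hinn : ∀ b : ∀ i, V i, ∃ a : ∀ i, V i, ∀ i, r i (a i) (b i) := by
    intro b
    choose a ha using fun i => (hr i).inn (b i)
    exact ⟨a, ha⟩
  refine ⟨hout, hinn, ?_⟩
  intro e s hes
  have hcond : ∀ (a b : ∀ i, V i), (∀ i, r i (a i) (b i)) → ∀ i x y, r i x y →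
      e (Function.update a i x) = s (Function.update b i y) := by
    intro a b hab i x y hxy
    apply hes
    intro j
    by_cases hj : j = i
    · subst hj; simpa using hxy
    · rw [Function.update_of_ne hj, Function.update_of_ne hj]; exact hab j
  have he : ∀ a i x, e (Function.update a i x) = e a := by
    intro a i x
    obtain ⟨b, hb⟩ := hout a
    obtain ⟨o, ho⟩ := (hr i).conn (fun x => e (Function.update a i x))
      (fun y => s (Function.update b i y)) (hcond a b hb i)
    have h1 := (ho x).1
    have h2 := (ho (a i)).1
    simp only [Function.update_eq_self] at h2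
    rw [h1, h2]
  have hs : ∀ b i y, s (Function.update b i y) = s b := by
    intro b i y
    obtain ⟨a, ha⟩ := hinn b
    obtain ⟨o, ho⟩ := (hr i).conn (fun x => e (Function.update a i x))
      (fun y => s (Function.update b i y)) (hcond a b ha i)
    have h1 := (ho y).2
    have h2 := (ho (b i)).2
    simp only [Function.update_eq_self] at h2
    rw [h1, h2]
  have a0 : ∀ i, V i := fun i => (hne i).some
  obtain ⟨b0, hb0⟩ := hout a0
  refine ⟨e a0, fun a => ⟨update_const e he a a0, ?_⟩⟩
  rw [update_const s hs a b0]
  exact (hes a0 b0 hb0).symm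

end Pool.Agent.Work.MP_e299be_co
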