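import Pool.Agent.Work.MP_e299be_co.Avoid

namespace Pool.Agent.Work.MP_e299be_co

/-- Edge types: last letter of the second player, answer of the first player, and the answers of
the first player to the possible next letters of the second player. -/
abbrev ET (c : ℕ) := Fin c × Fin c × (Fin c → Fin c)

structure Valid {c : ℕ} (T : Set (ET c)) : Prop where
  ne : T.Nonempty
  child : ∀ x y g, (x, y, g) ∈ T → ∀ q, ∃ g', (q, g q, g') ∈ T
  parent : ∀ x y g, (x, y, g) ∈ T → ∃ x0 p g0, (x0, p, g0) ∈ T ∧ g0 x = y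

/-- The blocks. -/
def InU {c : ℕ} (T : Set (ET c)) (a : Fin c × Fin c) : Prop :=
  (∃ x g, (x, a.1, g) ∈ T) ∨ (∃ g, (a.1, a.2, g) ∈ T)

/-- The arcs. -/
def arc {c : ℕ} (T : Set (ET c)) (a b : Fin c × Fin c) : Prop :=
  (∃ x g, (x, a.1, g) ∈ T ∧ g a.2 = b.1) ∨ (∃ g, (a.1, a.2, g) ∈ T ∧ g b.1 = b.2)

theorem locked_arc {c : ℕ} {T : Set (ET c)} (hT : Valid T) :
    Locked (fun a b : {a // InU T a} => arc T a.1 b.1) := by
  have hU0 : ∀ {x p g}, (x, p, g) ∈ T → ∀ z, InU T (p, z) := fun {x p g} h z => Or.inl ⟨x, g, h⟩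
  have hU1 : ∀ {x y g}, (x, y, g) ∈ T → InU T (x, y) := fun {x y g} h => Or.inr ⟨g, h⟩
  refine ⟨?_, ?_, ?_⟩
  · rintro ⟨⟨a, b⟩, h⟩
    rcases h with ⟨x, g, h⟩ | ⟨g, h⟩
    · obtain ⟨g', hg'⟩ := hT.child _ _ _ h b
      exact ⟨⟨(g b, b), hU0 hg' _⟩, Or.inl ⟨x, g, h, rfl⟩⟩
    · obtain ⟨g', hg'⟩ := hT.child _ _ _ h b
      exact ⟨⟨(b, g b), hU1 hg'⟩, Or.inr ⟨g, h, rfl⟩⟩
  · rintro ⟨⟨a, b⟩, h⟩
    rcases h with ⟨x, g, h⟩ | ⟨g, h⟩
    · obtain ⟨x0, p, g0, h0, h1⟩ := hT.parent _ _ _ h
      exact ⟨⟨(p, x), hU0 h0 _⟩, Or.inl ⟨x0, g0, h0, h1⟩⟩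
    · obtain ⟨x0, p, g0, h0, h1⟩ := hT.parent _ _ _ h
      exact ⟨⟨(x0, p), hU1 h0⟩, Or.inr ⟨g0, h0, h1⟩⟩
  · intro e s hes
    have k1 : ∀ {x y g} (h : (x, y, g) ∈ T) (x' : Fin c) (h' : InU T (x', g x')),
        e ⟨(x, y), hU1 h⟩ = s ⟨(x', g x'), h'⟩ := by
      intro x y g h x' h'
      exact hes _ _ (Or.inr ⟨g, h, rfl⟩)
    have k2 : ∀ {x0 x g} (h : (x0, x, g) ∈ T) (y z : Fin c) (h' : InU T (g y, z)),
        e ⟨(x, y), hU0 h y⟩ = s ⟨(g y, z), h'⟩ := by
      intro x0 x g h y z h'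
      exact hes _ _ (Or.inl ⟨x0, g, h, rfl⟩)
    have k3 : ∀ {x1 r g1} (h : (x1, r, g1) ∈ T) (z z' : Fin c),
        s ⟨(r, z), hU0 h z⟩ = s ⟨(r, z'), hU0 h z'⟩ := by
      intro x1 r g1 h z z'
      obtain ⟨x0, p, g0, h0, rfl⟩ := hT.parent _ _ _ h
      rw [← k2 h0 x1 z, ← k2 h0 x1 z']
    have k4 : ∀ {x y g} (h : (x, y, g) ∈ T) {x1 r g1} (h1 : (x1, r, g1) ∈ T) (z : Fin c),
        e ⟨(x, y), hU1 h⟩ = s ⟨(r, z), hU0 h1 z⟩ := by
      intro x y g h x1 r g1 h1 z
      rw [k1 h r (hU0 h1 _)]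
      exact k3 h1 _ _
    obtain ⟨⟨x0, y0, g0⟩, h0⟩ := hT.ne
    refine ⟨e ⟨(x0, y0), hU1 h0⟩, ?_⟩
    have k5 : ∀ {x y g} (h : (x, y, g) ∈ T), e ⟨(x, y), hU1 h⟩ = e ⟨(x0, y0), hU1 h0⟩ := by
      intro x y g h
      rw [k4 h h0 x0, k4 h0 h0 x0]
    rintro ⟨⟨a, b⟩, h⟩
    rcases h with ⟨x, g, h⟩ | ⟨g, h⟩
    · constructor
      · obtain ⟨g', hg'⟩ := hT.child _ _ _ h b
        have e1 := k2 h b b (hU0 hg' _)
        rw [k4 h0 hg' b]
        exact e1
      · exact (k4 h0 h b).symm
    · constructor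
      · exact k5 h
      · obtain ⟨x1, p, g1, h1, h2⟩ := hT.parent _ _ _ h
        simp only at h2
        subst h2
        rw [← k5 h1]
        exact (k1 h1 a _).symm

variable {c : ℕ}

/-- The full history after the moves `u` of the second player. -/
def hist (σ : List (Fin c) → Fin c) (u : List (Fin c)) : List (Fin c) :=
  u.foldl (fun h q => h ++ [σ h, q]) []

theorem hist_snoc (σ : List (Fin c) → Fin c) (u : List (Fin c)) (q : Fin c) :
    hist σ (u ++ [q]) = hist σ u ++ [σ (hist σ u), q] := by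
  simp [hist, List.foldl_append]

theorem hist_length (σ : List (Fin c) → Fin c) (u : List (Fin c)) :
    (hist σ u).length = 2 * u.length := by
  induction u using List.reverseRecOn with
  | nil => simp [hist]
  | append_singleton u q ih =>
    rw [hist_snoc, List.length_append, ih]; simp; ring

theorem hist_prefix (σ : List (Fin c) → Fin c) {u u' : List (Fin c)} (h : u <+: u') :
    hist σ u <+: hist σ u' := by
  obtain ⟨t, rfl⟩ := h
  induction t using List.reverseRecOn with
  | nil => simp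
  | append_singleton t q ih =>
    rw [← List.append_assoc, hist_snoc]
    exact ih.trans (List.prefix_append _ _)

/-- The edge type of the node `u ++ [q]`. -/
def ety (σ : List (Fin c) → Fin c) (u : List (Fin c)) (q : Fin c) : ET c :=
  (q, σ (hist σ (u ++ [q])), fun q' => σ (hist σ (u ++ [q] ++ [q'])))

/-- The edge types below the node `v`. -/
def E (σ : List (Fin c) → Fin c) (v : List (Fin c)) : Set (ET c) :=
  {t | ∃ u q, v <+: u ∧ t = ety σ u q}

theorem E_anti (σ : List (Fin c) → Fin c) {v v' : List (Fin c)} (h : v <+: v') :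
    E σ v' ⊆ E σ v := by
  rintro t ⟨u, q, h1, h2⟩
  exact ⟨u, q, h.trans h1, h2⟩

theorem exists_min (σ : List (Fin c) → Fin c) : ∃ v, ∀ v', v <+: v' → E σ v' = E σ v := by
  obtain ⟨v, hv⟩ : ∃ v, ∀ v', (E σ v).ncard ≤ (E σ v').ncard := by
    have := Function.argmin_le (fun v => (E σ v).ncard)
    exact ⟨_, fun v' => this v'⟩
  refine ⟨v, fun v' h => ?_⟩
  exact Set.eq_of_subset_of_ncard_le (E_anti σ h) (hv v') (Set.toFinite _)

theorem valid_E (σ : List (Fin c) → Fin c) {v : List (Fin c)}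
    (hv : ∀ v', v <+: v' → E σ v' = E σ v) : Valid (E σ v) := by
  refine ⟨⟨ety σ v (σ []), v, σ [], List.prefix_refl v, rfl⟩, ?_, ?_⟩
  · rintro x y g ⟨u, q, h1, h2⟩ q'
    unfold ety at h2
    simp only [Prod.mk.injEq] at h2
    obtain ⟨rfl, rfl, rfl⟩ := h2
    refine ⟨_, u ++ [x], q', h1.trans (List.prefix_append _ _), rfl⟩
  · intro x y g h
    rw [← hv (v ++ [σ []]) (List.prefix_append _ _)] at h
    obtain ⟨u, q, h1, h2⟩ := h
    unfold ety at h2
    simp only [Prod.mk.injEq] at h2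
    obtain ⟨rfl, rfl, rfl⟩ := h2
    obtain ⟨t, rfl⟩ := h1
    rcases List.eq_nil_or_concat t with rfl | ⟨t', q', rfl⟩
    · refine ⟨_, _, _, ⟨v, σ [], List.prefix_refl v, rfl⟩, ?_⟩
      simp
    · refine ⟨_, _, _, ⟨v ++ [σ []] ++ t', q', ?_, rfl⟩, ?_⟩
      · rw [List.append_assoc]; exact List.prefix_append _ _
      · simp

theorem read_arc (σ : List (Fin c) → Fin c) {v : List (Fin c)}
    (hv : ∀ v', v <+: v' → E σ v' = E σ v) {A B : Fin c × Fin c} (hAB : arc (E σ v) A B)
    {u : List (Fin c)} (hu : v <+: u) :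
    ∃ u' pre post, u <+: u' ∧ hist σ u' = hist σ u ++ pre ++ [A.1, A.2, B.1, B.2] ++ post ∧
      2 ≤ pre.length := by
  have hE : E σ (u ++ [σ []]) = E σ v := hv _ (hu.trans (List.prefix_append _ _))
  rcases hAB with ⟨x, g, h1, h2⟩ | ⟨g, h1, h2⟩
  · rw [← hE] at h1
    obtain ⟨u1, q1, h3, h4⟩ := h1
    unfold ety at h4
    simp only [Prod.mk.injEq] at h4
    obtain ⟨rfl, h5, rfl⟩ := h4
    have h6 : u ++ [σ []] <+: u1 ++ [x] := h3.trans (List.prefix_append _ _)
    obtain ⟨pre', hpre⟩ := hist_prefix σ h6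
    refine ⟨u1 ++ [x] ++ [A.2] ++ [B.2], [σ (hist σ u), σ []] ++ pre', [], ?_, ?_, by simp⟩
    · refine ((List.prefix_append u [σ []]).trans h6).trans ?_
      rw [List.append_assoc]; exact List.prefix_append _ _
    · beta_reduce at h2
      rw [hist_snoc, h2, hist_snoc, ← h5, ← hpre, hist_snoc]
      simp
  · rw [← hE] at h1
    obtain ⟨u1, q1, h3, h4⟩ := h1
    unfold ety at h4
    simp only [Prod.mk.injEq] at h4
    obtain ⟨rfl, h5, rfl⟩ := h4
    obtain ⟨pre', hpre⟩ := hist_prefix σ h3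
    refine ⟨u1 ++ [A.1] ++ [B.1] ++ [σ []], [σ (hist σ u), σ []] ++ pre' ++ [σ (hist σ u1)],
      [σ []], ?_, ?_, by simp⟩
    · refine ((List.prefix_append u [σ []]).trans h3).trans ?_
      rw [List.append_assoc, List.append_assoc]; exact List.prefix_append _ _
    · beta_reduce at h2
      rw [hist_snoc, h2, hist_snoc, ← h5, hist_snoc, ← hpre, hist_snoc]
      simp

/-- Blocks assigned to the variables. -/
def blk {V : Type} (f : V → Fin c × Fin c) (sep : ℕ → List (Fin c)) : V ⊕ ℕ → List (Fin c) :=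
  Sum.elim (fun a => [(f a).1, (f a).2]) sep

theorem read_list (σ : List (Fin c) → Fin c) {v : List (Fin c)}
    (hv : ∀ v', v <+: v' → E σ v' = E σ v) {V : Type} (f : V → Fin c × Fin c)
    (L : List (V × V)) (hL : ∀ a b, (a, b) ∈ L → arc (E σ v) (f a) (f b)) :
    ∀ (j : ℕ) (u : List (Fin c)), v <+: u → ∃ (u' S : List (Fin c)) (sep : ℕ → List (Fin c)),
      hist σ u' = hist σ u ++ S ++ ((pat j L).map (blk f sep)).flatten ∧ 2 ≤ S.length ∧
      ∀ i, 2 ≤ (sep i).length := by
  induction L with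
  | nil =>
    intro j u _
    refine ⟨u ++ [σ []], [σ (hist σ u), σ []], fun _ => [σ [], σ []], ?_, by simp, by simp⟩
    rw [hist_snoc]
    simp [pat]
  | cons x L ih =>
    obtain ⟨a, b⟩ := x
    intro j u hu
    obtain ⟨u1, pre, post, h1, h2, h3⟩ := read_arc σ hv (hL a b (by simp)) hu
    obtain ⟨u2, S, sep, h4, h5, h6⟩ := ih (fun a b h => hL a b (List.mem_cons_of_mem _ h)) (j + 1)
      u1 (hu.trans h1)
    refine ⟨u2, pre, Function.update sep j (post ++ S), ?_, h3, ?_⟩
    · rw [h4, h2]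
      have h7 : (pat (j + 1) L).map (blk f (Function.update sep j (post ++ S))) =
          (pat (j + 1) L).map (blk f sep) := by
        apply List.map_congr_left
        intro x hx
        cases x with
        | inl x => rfl
        | inr i =>
          have := pat_mem_inr L (j + 1) i hx
          simp only [blk, Sum.elim_inr]
          rw [Function.update_of_ne (by omega)]
      simp only [pat, List.map_cons, List.flatten_cons, h7]
      simp [blk]
    · intro i
      by_cases hi : i = j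
      · subst hi
        simp only [Function.update_self, List.length_append]
        omega
      · rw [Function.update_of_ne hi]
        exact h6 i

/-- The play in which the second player plays `y`. -/
def play (σ : List (Fin c) → Fin c) (y : ℕ → Fin c) (n : ℕ) : Fin c :=
  (hist σ ((List.range (n + 1)).map y)).getD n (y 0)

theorem play_factor (σ : List (Fin c) → Fin c) (y : ℕ → Fin c) (k : ℕ) :
    factor (play σ y) 0 (2 * k) = hist σ ((List.range k).map y) := by
  apply List.ext_getElem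
  · rw [factor_length, hist_length]; simp
  · intro i h1 h2
    rw [factor_getElem]
    rw [factor_length] at h1
    have hlen : i < (hist σ ((List.range (i + 1)).map y)).length := by
      rw [hist_length]; simp; omega
    simp only [zero_add]
    unfold play
    rw [List.getD_eq_getElem _ _ hlen]
    have hpre : ∀ {m n : ℕ}, m ≤ n → (List.range m).map y <+: (List.range n).map y := by
      intro m n hmn
      obtain ⟨d, rfl⟩ := Nat.exists_eq_add_of_le hmn
      rw [List.range_add, List.map_append]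
      exact List.prefix_append _ _
    rcases le_total (i + 1) k with h | h
    · exact (hist_prefix σ (hpre h)).getElem hlen
    · exact ((hist_prefix σ (hpre h)).getElem h2).symm

theorem play_consistent (σ : List (Fin c) → Fin c) (y : ℕ → Fin c) (k : ℕ) :
    play σ y (2 * k) = σ (factor (play σ y) 0 (2 * k)) := by
  have h1 := play_factor σ y (k + 1)
  have h2 := play_factor σ y k
  rw [show 2 * (k + 1) = 2 * k + 2 by ring, factor_add, h2, List.range_succ, List.map_append,
    List.map_singleton, hist_snoc] at h1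
  have h3 := List.append_cancel_left h1
  have h4 : factor (play σ y) (0 + 2 * k) 2 = [play σ y (2 * k), play σ y (2 * k + 1)] := by
    simp [factor, List.range_succ]
  rw [h4] at h3
  simp only [List.cons.injEq] at h3
  rw [h2]
  exact h3.1

theorem second_forces (hc : 0 < c) (σ : List (Fin c) → Fin c) :
    ∃ T : Set (ET c), Valid T ∧ ∀ (V : Type) (f : V → Fin c × Fin c) (L : List (V × V)),
      (∀ a b, (a, b) ∈ L → arc T (f a) (f b)) →
      ∃ s : ℕ → Fin c, (∀ n, s (2 * n) = σ (factor s 0 (2 * n))) ∧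
        ∃ k n, Matches 2 (pat 0 L) (factor s k n) := by
  obtain ⟨v, hv⟩ := exists_min σ
  refine ⟨E σ v, valid_E σ hv, ?_⟩
  intro V f L hL
  obtain ⟨u', S, sep, h1, h2, h3⟩ := read_list σ hv f L hL 0 v (List.prefix_refl v)
  set y : ℕ → Fin c := fun n => u'.getD n ⟨0, hc⟩ with hy
  refine ⟨play σ y, play_consistent σ y, (hist σ v).length + S.length,
    ((pat 0 L).map (blk f sep)).flatten.length, ?_⟩
  have hu' : (List.range u'.length).map y = u' := by
    apply List.ext_getElem
    · simp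
    · intro i h4 h5
      simp only [List.getElem_map, List.getElem_range, hy]
      rw [List.getD_eq_getElem _ _ h5]
  have h4 := play_factor σ y u'.length
  rw [hu', h1] at h4
  have h5 : 2 * u'.length = (hist σ v).length + S.length +
      ((pat 0 L).map (blk f sep)).flatten.length := by
    rw [← hist_length σ u', h1]
    simp only [List.length_append]
  rw [h5, factor_add] at h4
  have h6 := (List.append_inj h4 (by rw [factor_length, List.length_append])).2
  rw [zero_add] at h6
  refine ⟨blk f sep, ?_, h6⟩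
  intro x _
  cases x with
  | inl a => simp [blk]
  | inr i => simpa [blk] using h3 i

end Pool.Agent.Work.MP_e299be_co
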